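import Mathlib

/-!
Powers mod 2 of the binary pattern-count matrices.

Proof: `M = (1 - T)⁻¹ (1 - S)⁻¹` where `T` deletes the last binary digit and `S` deletes the leading
binary digit 1 (and the zeros after it); `S` and `T` commute, so Frobenius gives
`M ^ 2^n = ((1 - S^(2^n)) (1 - T^(2^n)))⁻¹` modulo 2, and `S^(2^n) = 0`, `T^(2^n) = E`.
-/

namespace Pool.Agent.Results.MP_b7336c_co.Full

/-- The binary representation of `j`, most significant digit first, without leading zeros. -/
def binWord (j : ℕ) : List ℕ := (Nat.digits 2 j).reverse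

/-- The number of (possibly overlapping) occurrences of the word `w` as a block of consecutive
letters of the word `l`: the number of starting positions `k` at which the next `w.length`
letters of `l` spell `w`. -/
def occ (w l : List ℕ) : ℕ :=
  ((Finset.range l.length).filter (fun k => (l.drop k).take w.length = w)).card

/-- The `N × N` integer matrix, `N = 2^(2^n)`, whose entry in row `i + 1`, column `j + 1`
(`i j : Fin N`) is the number of occurrences of the binary word of `j + 1` in that of `i + 1`. -/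
def patMatrix (n : ℕ) : Matrix (Fin (2 ^ 2 ^ n)) (Fin (2 ^ 2 ^ n)) ℤ :=
  Matrix.of fun i j => (occ (binWord ((j : ℕ) + 1)) (binWord ((i : ℕ) + 1)) : ℤ)

/-- The `N × N` matrix, `N = 2^(2^n)`, whose only nonzero entry is a `1` in row `N`, column `1`. -/
def cornerMatrix (n : ℕ) : Matrix (Fin (2 ^ 2 ^ n)) (Fin (2 ^ 2 ^ n)) ℤ :=
  Matrix.of fun i j => if (i : ℕ) + 1 = 2 ^ 2 ^ n ∧ (j : ℕ) + 1 = 1 then 1 else 0

lemma occ_nil (w : List ℕ) : occ w [] = 0 := by simp [occ]

lemma occ_snoc (w l : List ℕ) (d : ℕ) (hw : w ≠ []) :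
    occ w (l ++ [d]) = occ w l + if w <:+ l ++ [d] then 1 else 0 := by
  classical
  have hlen : 0 < w.length := List.length_pos_iff.mpr hw
  unfold occ
  have key : ∀ k, (((l ++ [d]).drop k).take w.length = w) ↔
      ((l.drop k).take w.length = w ∨ (w <:+ l ++ [d] ∧ k + w.length = l.length + 1)) := by
    intro k
    constructor
    · intro h
      have h1 : w.length ≤ l.length + 1 - k := by
        have := congrArg List.length h
        simp only [List.length_take, List.length_drop, List.length_append,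
          List.length_singleton] at this
        omega
      by_cases h2 : k + w.length ≤ l.length
      · left
        rw [List.drop_append_of_le_length (by omega), List.take_append_of_le_length
          (by simp only [List.length_drop]; omega)] at h
        exact h
      · right
        refine ⟨?_, by omega⟩
        rw [List.take_of_length_le (by
          simp only [List.length_drop, List.length_append, List.length_singleton]; omega)] at h
        rw [← h]
        exact List.drop_suffix _ _
    · rintro (h | ⟨h, hk⟩)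
      · have h1 : w.length ≤ l.length - k := by
          have := congrArg List.length h
          simp only [List.length_take, List.length_drop] at this
          omega
        rw [List.drop_append_of_le_length (by omega), List.take_append_of_le_length
          (by simp only [List.length_drop]; omega)]
        exact h
      · rw [List.take_of_length_le (by
          simp only [List.length_drop, List.length_append, List.length_singleton]; omega)]
        rw [List.suffix_iff_eq_drop] at h
        rw [h]
        congr 1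
        simp only [List.length_append, List.length_singleton]
        omega
  have hsmall : ∀ k, (l.drop k).take w.length = w → k + w.length ≤ l.length := by
    intro k h
    have := congrArg List.length h
    simp only [List.length_take, List.length_drop] at this
    omega
  split_ifs with hs
  · have hle : w.length ≤ l.length + 1 := by simpa using hs.length_le
    rw [← Finset.card_insert_of_notMem (a := l.length + 1 - w.length)]
    · congr 1
      ext k
      simp only [Finset.mem_filter, Finset.mem_range, Finset.mem_insert, key, List.length_append,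
        List.length_singleton]
      constructor
      · rintro ⟨h1, h2 | h2⟩
        · right
          exact ⟨by have := hsmall k h2; omega, h2⟩
        · left; omega
      · rintro (h | ⟨h1, h2⟩)
        · exact ⟨by omega, Or.inr ⟨hs, by omega⟩⟩
        · exact ⟨by omega, Or.inl h2⟩
    · simp only [Finset.mem_filter, Finset.mem_range, not_and]
      intro _ h
      have := hsmall _ h
      omega
  · rw [add_zero]
    congr 1
    ext k
    simp only [Finset.mem_filter, Finset.mem_range, key, List.length_append,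
      List.length_singleton]
    constructor
    · rintro ⟨h1, h2 | h2⟩
      · exact ⟨by have := hsmall k h2; omega, h2⟩
      · exact absurd h2.1 hs
    · rintro ⟨h1, h2⟩
      exact ⟨by omega, Or.inl h2⟩

lemma binWord_zero : binWord 0 = [] := by simp [binWord]

lemma binWord_pos (x : ℕ) (hx : 0 < x) : binWord x = binWord (x / 2) ++ [x % 2] := by
  unfold binWord
  rw [Nat.digits_def' (by norm_num) hx, List.reverse_cons]

lemma binWord_ne_nil (x : ℕ) (hx : 0 < x) : binWord x ≠ [] := by
  rw [binWord_pos x hx]; simp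

/-- suffix test in arithmetic form -/
lemma suffix_iff (y x : ℕ) (hy : 0 < y) :
    binWord y <:+ binWord x ↔ x % 2 ^ (Nat.log 2 y + 1) = y := by
  unfold binWord
  rw [List.reverse_suffix]
  have hl : (Nat.digits 2 y).length = Nat.log 2 y + 1 :=
    Nat.length_digits 2 y (by norm_num) hy.ne'
  constructor
  · intro h
    rw [List.prefix_iff_eq_take] at h
    rw [Nat.self_mod_pow_eq_ofDigits_take _ _ (by norm_num), ← hl, ← h, Nat.ofDigits_digits]
  · intro h
    have hx : x = y + 2 ^ (Nat.digits 2 y).length * (x / 2 ^ (Nat.log 2 y + 1)) := by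
      rw [hl]
      conv_lhs => rw [← Nat.mod_add_div x (2 ^ (Nat.log 2 y + 1)), h]
    rw [hx, ← Nat.digits_append_digits (by norm_num)]
    exact List.prefix_append _ _

/-- delete the leading digit -/
def sf (x : ℕ) : ℕ := x - 2 ^ Nat.log 2 x

/-- delete the last digit -/
def tf (x : ℕ) : ℕ := x / 2

lemma sf_le (x : ℕ) : sf x ≤ x := Nat.sub_le _ _
lemma tf_le (x : ℕ) : tf x ≤ x := Nat.div_le_self _ _
lemma sf_zero : sf 0 = 0 := by simp [sf]
lemma tf_zero : tf 0 = 0 := by simp [tf]

lemma sf_lt (x : ℕ) : sf x < 2 ^ Nat.log 2 x := by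
  have := Nat.lt_pow_succ_log_self (b := 2) (by norm_num) x
  unfold sf
  rw [pow_succ] at this
  have h2 : 0 < 2 ^ Nat.log 2 x := by positivity
  omega

lemma sf_tf (x : ℕ) : sf (tf x) = tf (sf x) := by
  unfold sf tf
  rcases Nat.lt_or_ge x 2 with h | h
  · interval_cases x <;> simp
  · have h1 : Nat.log 2 x = Nat.log 2 (x / 2) + 1 := Nat.log_of_one_lt_of_le (by norm_num) h
    rw [h1, pow_succ]
    omega

lemma suf_rec (x y : ℕ) (hx : 0 < x) (hy : 0 < y) :
    (x % 2 ^ (Nat.log 2 y + 1) = y) ↔ (x = y ∨ sf x % 2 ^ (Nat.log 2 y + 1) = y) := by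
  have hxle : 2 ^ Nat.log 2 x ≤ x := Nat.pow_log_le_self 2 hx.ne'
  have hylt : y < 2 ^ (Nat.log 2 y + 1) := Nat.lt_pow_succ_log_self (by norm_num) y
  have hyle : 2 ^ Nat.log 2 y ≤ y := Nat.pow_log_le_self 2 hy.ne'
  have aux : Nat.log 2 y + 1 ≤ Nat.log 2 x →
      sf x % 2 ^ (Nat.log 2 y + 1) = x % 2 ^ (Nat.log 2 y + 1) := by
    intro h
    obtain ⟨c, hc⟩ := pow_dvd_pow 2 h
    have : x = sf x + 2 ^ (Nat.log 2 y + 1) * c := by unfold sf; omega
    conv_rhs => rw [this, Nat.add_mul_mod_self_left]
  constructor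
  · intro h
    by_cases hxy : x = y
    · exact Or.inl hxy
    · right
      have : 2 ^ (Nat.log 2 y + 1) ≤ x := by
        by_contra hc
        rw [Nat.mod_eq_of_lt (by omega)] at h
        exact hxy h
      rw [aux (Nat.le_log_of_pow_le (by norm_num) this), h]
  · rintro (h | h)
    · rw [h]; exact Nat.mod_eq_of_lt hylt
    · have h1 : y ≤ sf x := by rw [← h]; exact Nat.mod_le _ _
      have h2 := sf_lt x
      have h3 : 2 ^ Nat.log 2 y < 2 ^ Nat.log 2 x := by omega
      have h4 : Nat.log 2 y < Nat.log 2 x := (Nat.pow_lt_pow_iff_right (by norm_num)).mp h3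
      rw [← aux h4, h]

lemma suf_excl (x y : ℕ) (hx : 0 < x) (h : sf x % 2 ^ (Nat.log 2 y + 1) = y) : x ≠ y := by
  have h1 : y ≤ sf x := by rw [← h]; exact Nat.mod_le _ _
  have hxle : 2 ^ Nat.log 2 x ≤ x := Nat.pow_log_le_self 2 hx.ne'
  have h2 : 0 < 2 ^ Nat.log 2 x := by positivity
  unfold sf at h1
  omega

lemma sf_iter_zero (k : ℕ) : sf^[k] 0 = 0 := Function.iterate_fixed sf_zero k

lemma sf_iter (k : ℕ) : ∀ x, x < 2 ^ k → sf^[k] x = 0 := by
  induction k with
  | zero => intro x hx; simpa using hx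
  | succ k ih =>
    intro x hx
    rw [Function.iterate_succ_apply]
    apply ih
    rcases Nat.eq_zero_or_pos x with rfl | h0
    · rw [sf_zero]; positivity
    · have h1 : Nat.log 2 x < k + 1 := Nat.log_lt_of_lt_pow h0.ne' hx
      exact lt_of_lt_of_le (sf_lt x) (Nat.pow_le_pow_right (by norm_num) (by omega))

lemma sf_iter' (k : ℕ) (hk : 0 < k) (x : ℕ) (hx : x ≤ 2 ^ k) : sf^[k] x = 0 := by
  rcases Nat.lt_or_eq_of_le hx with h | h
  · exact sf_iter k x h
  · obtain ⟨m, rfl⟩ : ∃ m, k = m + 1 := ⟨k - 1, by omega⟩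
    rw [Function.iterate_succ_apply]
    have : sf x = 0 := by unfold sf; rw [h, Nat.log_pow (by norm_num)]; simp
    rw [this, sf_iter_zero]

lemma tf_iter (k : ℕ) : ∀ x, tf^[k] x = x / 2 ^ k := by
  induction k with
  | zero => intro x; simp
  | succ k ih =>
    intro x
    rw [Function.iterate_succ_apply, ih, tf, Nat.div_div_eq_div_mul, pow_succ, mul_comm]

section Mat
variable (N : ℕ)

/-- matrix of a two-variable function on `1..N` -/
def ofF (a : ℕ → ℕ → ZMod 2) : Matrix (Fin N) (Fin N) (ZMod 2) :=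
  Matrix.of fun i j => a ((i : ℕ) + 1) ((j : ℕ) + 1)

/-- matrix of a map -/
def fm (f : ℕ → ℕ) : Matrix (Fin N) (Fin N) (ZMod 2) :=
  ofF N fun x y => if f x = y then 1 else 0

lemma fm_mul (f : ℕ → ℕ) (hf : ∀ x, f x ≤ x) (a : ℕ → ℕ → ZMod 2) (ha : ∀ y, a 0 (y + 1) = 0) :
    fm N f * ofF N a = ofF N fun x y => a (f x) y := by
  ext i j
  simp only [fm, ofF, Matrix.mul_apply, Matrix.of_apply, ite_mul, one_mul, zero_mul]
  rcases Nat.eq_zero_or_pos (f (i + 1)) with h | h
  · rw [h, ha]
    apply Finset.sum_eq_zero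
    intro k _
    rw [if_neg (by omega)]
  · have h1 := hf (i + 1)
    have h2 := i.2
    rw [Finset.sum_eq_single (⟨f (i + 1) - 1, by omega⟩ : Fin N)]
    · have : f (i + 1) - 1 + 1 = f (i + 1) := by omega
      simp [this]
    · intro k _ hk
      rw [if_neg]
      intro h3
      apply hk
      ext
      simp only
      omega
    · intro h3; exact absurd (Finset.mem_univ _) h3

lemma fm_comp (f g : ℕ → ℕ) (hf : ∀ x, f x ≤ x) (hg : g 0 = 0) :
    fm N f * fm N g = fm N (fun x => g (f x)) := by
  have := fm_mul N f hf (fun x y => if g x = y then 1 else 0) (by intro y; simp [hg])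
  exact this

lemma fm_id : fm N (fun x => x) = 1 := by
  ext i j
  simp only [fm, ofF, Matrix.of_apply, Matrix.one_apply, Fin.ext_iff]
  simp

lemma fm_pow (f : ℕ → ℕ) (hf : ∀ x, f x ≤ x) (h0 : f 0 = 0) (k : ℕ) :
    fm N f ^ k = fm N (f^[k]) := by
  induction k with
  | zero => rw [pow_zero, ← fm_id]; rfl
  | succ k ih =>
    rw [pow_succ', ih, fm_comp N f _ hf (Function.iterate_fixed h0 k)]
    rfl

/-- pattern count mod 2 -/
def mF (x y : ℕ) : ZMod 2 := (occ (binWord y) (binWord x) : ZMod 2)

/-- suffix indicator -/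
def sufF (x y : ℕ) : ZMod 2 := if x % 2 ^ (Nat.log 2 y + 1) = y then 1 else 0

lemma step1 : (1 - fm N tf) * ofF N mF = ofF N sufF := by
  rw [sub_mul, one_mul, fm_mul N tf tf_le mF (by intro y; simp [mF, binWord_zero, occ_nil])]
  ext i j
  simp only [ofF, Matrix.sub_apply, Matrix.of_apply, mF, sufF, tf]
  have h := occ_snoc (binWord (j + 1)) (binWord ((i + 1) / 2)) ((i + 1) % 2)
    (binWord_ne_nil _ (Nat.succ_pos _))
  rw [← binWord_pos _ (Nat.succ_pos _)] at h
  rw [h]
  simp only [suffix_iff _ _ (Nat.succ_pos (j : ℕ))]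
  split_ifs <;> simp

lemma step2 : (1 - fm N sf) * ofF N sufF = 1 := by
  rw [sub_mul, one_mul, fm_mul N sf sf_le sufF (by intro y; simp [sufF])]
  ext i j
  simp only [ofF, Matrix.sub_apply, Matrix.of_apply, sufF, Matrix.one_apply, Fin.ext_iff]
  have h1 := suf_rec (i + 1) (j + 1) (Nat.succ_pos _) (Nat.succ_pos _)
  have h2 := suf_excl (i + 1) (j + 1) (Nat.succ_pos _)
  by_cases h3 : sf (i + 1) % 2 ^ (Nat.log 2 (j + 1) + 1) = j + 1
  · rw [if_pos h3, if_pos (h1.mpr (Or.inr h3)), if_neg (by have := h2 h3; omega)]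
    simp
  · rw [if_neg h3]
    by_cases h4 : (i : ℕ) = j
    · rw [if_pos h4, if_pos (h1.mpr (Or.inl (by omega)))]; simp
    · rw [if_neg h4, if_neg]
      · simp
      · intro h5
        rcases h1.mp h5 with h6 | h6
        · omega
        · exact h3 h6

lemma comm_st : Commute (fm N sf) (fm N tf) := by
  unfold Commute SemiconjBy
  rw [fm_comp N sf tf sf_le tf_zero, fm_comp N tf sf tf_le sf_zero]
  simp only [sf_tf]

end Mat

lemma main (n : ℕ) :
    ofF (2 ^ 2 ^ n) mF ^ 2 ^ n = 1 + fm (2 ^ 2 ^ n) (fun x => x / 2 ^ 2 ^ n) := by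
  set N := 2 ^ 2 ^ n with hN
  have hNpos : 1 < N := Nat.one_lt_two_pow (by positivity)
  have : Nonempty (Fin N) := ⟨⟨0, by omega⟩⟩
  have : Fact (Nat.Prime 2) := ⟨Nat.prime_two⟩
  have hinv : ((1 - fm N sf) * (1 - fm N tf)) * ofF N mF = 1 := by
    rw [mul_assoc, step1, step2]
  have hinv' : ofF N mF * ((1 - fm N sf) * (1 - fm N tf)) = 1 := mul_eq_one_comm.mp hinv
  have hc : Commute ((1 - fm N sf) * (1 - fm N tf)) (ofF N mF) := by
    unfold Commute SemiconjBy; rw [hinv, hinv']
  have hc2 : Commute (1 - fm N sf) (1 - fm N tf) :=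
    (Commute.one_left _).sub_left ((Commute.one_right _).sub_right (comm_st N))
  have h1 : ((1 - fm N sf) * (1 - fm N tf)) ^ 2 ^ n * ofF N mF ^ 2 ^ n = 1 := by
    rw [← hc.mul_pow, hinv, one_pow]
  rw [hc2.mul_pow, sub_pow_char_pow_of_commute 2 n (Commute.one_left _),
    sub_pow_char_pow_of_commute 2 n (Commute.one_left _), one_pow,
    fm_pow N sf sf_le sf_zero, fm_pow N tf tf_le tf_zero] at h1
  have hS : fm N (sf^[2 ^ n]) = 0 := by
    ext i j
    simp only [fm, ofF, Matrix.of_apply, Matrix.zero_apply]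
    rw [sf_iter' _ (by positivity) _ (by have := i.2; omega), if_neg (by omega)]
  have hT : tf^[2 ^ n] = fun x => x / N := funext (tf_iter _)
  rw [hS, hT, sub_zero, one_mul] at h1
  have hE : fm N (fun x => x / N) * fm N (fun x => x / N) = 0 := by
    rw [fm_comp N _ _ (fun x => Nat.div_le_self _ _) (by simp)]
    ext i j
    simp only [fm, ofF, Matrix.of_apply, Matrix.zero_apply]
    have : ((i : ℕ) + 1) / N ≤ 1 := by
      apply Nat.div_le_of_le_mul
      have := i.2
      omega
    have h0 : ((i : ℕ) + 1) / N / N = 0 := Nat.div_eq_of_lt (by omega)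
    apply if_neg
    show ¬ (((i : ℕ) + 1) / N / N = (j : ℕ) + 1)
    omega
  have h2 : (1 + fm N (fun x => x / N)) * (1 - fm N (fun x => x / N)) = 1 := by
    rw [add_mul, mul_sub, mul_sub, hE]; simp
  calc ofF N mF ^ 2 ^ n
      = ((1 + fm N (fun x => x / N)) * (1 - fm N (fun x => x / N))) * ofF N mF ^ 2 ^ n := by
        rw [h2, one_mul]
    _ = 1 + fm N (fun x => x / N) := by rw [mul_assoc, h1, mul_one]

theorem result : ∀ n : ℕ, 1 ≤ n → ∀ i j : Fin (2 ^ 2 ^ n),
    (patMatrix n ^ 2 ^ n) i j ≡ (1 + cornerMatrix n) i j [ZMOD 2] := by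
  intro n _ i j
  have hN : 1 < 2 ^ 2 ^ n := Nat.one_lt_two_pow (by positivity)
  have h1 : (Int.castRingHom (ZMod 2)).mapMatrix (patMatrix n) = ofF (2 ^ 2 ^ n) mF := by
    ext i j
    simp [patMatrix, ofF, mF]
  have h2 : (Int.castRingHom (ZMod 2)).mapMatrix (cornerMatrix n) =
      fm (2 ^ 2 ^ n) (fun x => x / 2 ^ 2 ^ n) := by
    ext i j
    simp only [cornerMatrix, fm, ofF, RingHom.mapMatrix_apply, Matrix.map_apply, Matrix.of_apply,
      eq_intCast]
    have hi := i.2
    have key : ((i : ℕ) + 1 = 2 ^ 2 ^ n ∧ (j : ℕ) + 1 = 1) ↔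
        ((i : ℕ) + 1) / 2 ^ 2 ^ n = (j : ℕ) + 1 := by
      by_cases h : (i : ℕ) + 1 = 2 ^ 2 ^ n
      · rw [h, Nat.div_self (by omega)]
        constructor
        · intro hh; exact hh.2.symm
        · intro hh; exact ⟨rfl, hh.symm⟩
      · rw [Nat.div_eq_of_lt (by omega)]
        constructor
        · intro hh; exact absurd hh.1 h
        · intro hh; omega
    by_cases h : ((i : ℕ) + 1 = 2 ^ 2 ^ n ∧ (j : ℕ) + 1 = 1)
    · rw [if_pos h, if_pos (key.mp h)]; simp
    · rw [if_neg h, if_neg (fun hh => h (key.mpr hh))]; simp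
  have h3 : (Int.castRingHom (ZMod 2)).mapMatrix (patMatrix n ^ 2 ^ n) =
      (Int.castRingHom (ZMod 2)).mapMatrix (1 + cornerMatrix n) := by
    rw [map_pow, map_add, map_one, h1, h2, main]
  have h4 := congrFun (congrFun h3 i) j
  simp only [RingHom.mapMatrix_apply, Matrix.map_apply, eq_intCast] at h4
  exact (ZMod.intCast_eq_intCast_iff _ _ 2).mp h4

end Pool.Agent.Results.MP_b7336c_co.Full
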